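import Pool.Agent.Helper97.FS.Stmts

set_option autoImplicit false

namespace Pool.Agent.Helper97.FS

open Finset MeasureTheory Filter Topology UnitAddTorus
open scoped ComplexConjugate ENNReal
open Pool.Agent.Helper97.Sub

/-- square summable coefficients define a function in `L2` -/
theorem E_l2 {n : ℕ} (f : (Fin n → ℤ) → ℂ) (hf : Summable fun m => ‖f m‖ ^ 2) :
    ∃ F : UnitAddTorus (Fin n) → ℂ, MemLp F 2 (tor n) ∧
      ∀ m, ∫ x, mFourier m x * F x ∂(tor n) = f m := by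
  have hm : Memℓp (fun m => f (-m)) 2 := by
    rw [memℓp_gen_iff (by norm_num)]
    have h2 := (Equiv.neg (Fin n → ℤ)).summable_iff.mpr hf
    simpa [Function.comp_def] using h2
  let A : lp (fun _ : (Fin n → ℤ) => ℂ) 2 := ⟨fun m => f (-m), hm⟩
  let F0 := (mFourierBasis (d := Fin n)).repr.symm A
  refine ⟨F0, Lp.memLp _, fun m => ?_⟩
  have h1 : (mFourierBasis (d := Fin n)).repr F0 (-m) = f m := by
    simp only [F0, LinearIsometryEquiv.apply_symm_apply]
    change f (- -m) = f m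
    rw [neg_neg]
  rw [mFourierBasis_repr] at h1
  rw [← h1]
  have h3 : mFourierCoeff F0 (-m) = ∫ x, mFourier (- -m) x • F0 x ∂(tor n) := rfl
  rw [h3, neg_neg]
  rfl

theorem E_pos {n d : ℕ} {v : (Fin n → ℤ) →+ ℝ} {B : (Fin n → ℤ) → Fin d → Fin d → ℂ}
    (hB : PDM v B) (S : Finset (Fin n → ℤ)) (c : (Fin n → ℤ) → ℂ) :
    0 ≤ (∑ m ∈ S, ∑ m' ∈ S, c m * conj (c m') * ∑ a, B (m' - m) a a).re := by
  have h1 : ∀ a0 : Fin d, 0 ≤ (∑ m ∈ S, ∑ m' ∈ S, c m * conj (c m') * B (m' - m) a0 a0).re := by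
    intro a0
    have h := hB.pos S (fun m a => if a = a0 then c m else 0)
    have e : (∑ m ∈ S, ∑ m' ∈ S, ∑ a, ∑ b, (if a = a0 then c m else 0) *
        conj (if b = a0 then c m' else 0) * B (m' - m) a b) =
        ∑ m ∈ S, ∑ m' ∈ S, c m * conj (c m') * B (m' - m) a0 a0 := by
      refine Finset.sum_congr rfl fun m _ => Finset.sum_congr rfl fun m' _ => ?_
      rw [Finset.sum_eq_single a0]
      · rw [Finset.sum_eq_single a0]
        · simp
        · intro b _ hb; simp [hb]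
        · intro h; exact absurd (Finset.mem_univ _) h
      · intro a _ ha; simp [ha]
      · intro h; exact absurd (Finset.mem_univ _) h
    rw [e] at h
    exact h
  have h2 : (∑ m ∈ S, ∑ m' ∈ S, c m * conj (c m') * ∑ a, B (m' - m) a a) =
      ∑ a, ∑ m ∈ S, ∑ m' ∈ S, c m * conj (c m') * B (m' - m) a a := by
    rw [Finset.sum_comm]
    have : ∀ m' ∈ S, (∑ m ∈ S, c m * conj (c m') * ∑ a, B (m' - m) a a) =
        ∑ m ∈ S, ∑ a, c m * conj (c m') * B (m' - m) a a := by
      intro m' _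
      exact Finset.sum_congr rfl fun m _ => by rw [Finset.mul_sum]
    rw [Finset.sum_congr rfl this]
    rw [Finset.sum_comm]
    have h4 : ∀ m ∈ S, (∑ m' ∈ S, ∑ a, c m * conj (c m') * B (m' - m) a a) =
        ∑ a, ∑ m' ∈ S, c m * conj (c m') * B (m' - m) a a := by
      intro m _
      rw [Finset.sum_comm]
    rw [Finset.sum_congr rfl h4, Finset.sum_comm]
  rw [h2, Complex.re_sum]
  exact Finset.sum_nonneg fun a _ => h1 a

/-- the finite support of the convolution -/
theorem E_fin {n d : ℕ} {v : (Fin n → ℤ) →+ ℝ} {B : (Fin n → ℤ) → Fin d → Fin d → ℂ}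
    (hB : PDM v B) {R0 t : ℝ} {K : (Fin n → ℤ) → Fin d × Fin d → ℂ}
    (hK : ∀ m, R0 + 1 < |v m + t| → K m = 0) (m1 : Fin n → ℤ) :
    (Function.support fun m => ∑ i : Fin d × Fin d, B (m1 - m) i.1 i.2 * K m i).Finite := by
  refine ((hB.fin (|v m1 + t| + (R0 + 1))).image (fun r => m1 - r)).subset ?_
  intro m hm
  rw [Function.mem_support] at hm
  have h1 : K m ≠ 0 := by
    intro h; apply hm; simp [h]
  have h2 : B (m1 - m) ≠ 0 := by
    intro h; apply hm; simp [h]
  have h3 : |v m + t| ≤ R0 + 1 := by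
    by_contra h4
    exact h1 (hK m (not_le.mp h4))
  refine ⟨m1 - m, ⟨?_, h2⟩, by simp⟩
  have h5 : v (m1 - m) = (v m1 + t) - (v m + t) := by rw [map_sub]; ring
  rw [h5]
  calc |(v m1 + t) - (v m + t)| ≤ |v m1 + t| + |v m + t| := abs_sub _ _
    _ ≤ _ := by linarith

theorem E_sq {n d : ℕ} {v : (Fin n → ℤ) →+ ℝ} {B : (Fin n → ℤ) → Fin d → Fin d → ℂ}
    (hB : PDM v B) {R0 t : ℝ} {K : (Fin n → ℤ) → Fin d × Fin d → ℂ}
    (hs : Summable fun m => ∑ i, ‖K m i‖ ^ 2)
    (hK : ∀ m, R0 + 1 < |v m + t| → K m = 0)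
    (h0 : ∀ m1, 1 < |v m1 + t| → ∑ᶠ m : Fin n → ℤ, ∑ i : Fin d × Fin d,
      B (m1 - m) i.1 i.2 * K m i = 0) :
    Summable fun m1 => ‖∑ᶠ m : Fin n → ℤ, ∑ i : Fin d × Fin d,
      B (m1 - m) i.1 i.2 * K m i‖ ^ 2 := by
  classical
  set T0 : Finset (Fin n → ℤ) := (hB.fin (R0 + 2)).toFinset with hT0
  set C : ℝ := ∑ r ∈ T0, ∑ i : Fin d × Fin d, ‖B r i.1 i.2‖ ^ 2 with hC
  have hC0 : 0 ≤ C := Finset.sum_nonneg fun r _ => Finset.sum_nonneg fun i _ => by positivity
  have hsum : Summable fun m1 => C * ∑ r ∈ T0, ∑ i : Fin d × Fin d, ‖K (m1 - r) i‖ ^ 2 := by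
    apply Summable.mul_left
    apply summable_sum
    intro r _
    have hinj : Function.Injective fun m1 : Fin n → ℤ => m1 - r := sub_left_injective
    have h := hs.comp_injective hinj
    exact h
  refine Summable.of_nonneg_of_le (fun _ => by positivity) (fun m1 => ?_) hsum
  have hnn : 0 ≤ ∑ r ∈ T0, ∑ i : Fin d × Fin d, ‖K (m1 - r) i‖ ^ 2 :=
    Finset.sum_nonneg fun r _ => Finset.sum_nonneg fun i _ => by positivity
  by_cases hm : 1 < |v m1 + t|
  · rw [h0 m1 hm]
    simp only [norm_zero]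
    have := mul_nonneg hC0 hnn
    simpa using this
  · push Not at hm
    have e : ∑ᶠ m : Fin n → ℤ, ∑ i : Fin d × Fin d, B (m1 - m) i.1 i.2 * K m i =
        ∑ r ∈ T0, ∑ i : Fin d × Fin d, B r i.1 i.2 * K (m1 - r) i := by
      have e1 : (Function.support fun m => ∑ i : Fin d × Fin d, B (m1 - m) i.1 i.2 * K m i) ⊆
          ((T0.image fun r => m1 - r : Finset (Fin n → ℤ)) : Set (Fin n → ℤ)) := by
        intro m hmm
        rw [Function.mem_support] at hmm
        have h1 : K m ≠ 0 := by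
          intro h; apply hmm; simp [h]
        have h2 : B (m1 - m) ≠ 0 := by
          intro h; apply hmm; simp [h]
        have h3 : |v m + t| ≤ R0 + 1 := by
          by_contra h4
          exact h1 (hK m (not_le.mp h4))
        have h5 : v (m1 - m) = (v m1 + t) - (v m + t) := by rw [map_sub]; ring
        have h6 : |v (m1 - m)| ≤ R0 + 2 := by
          rw [h5]
          calc |(v m1 + t) - (v m + t)| ≤ |v m1 + t| + |v m + t| := abs_sub _ _
            _ ≤ _ := by linarith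
        simp only [Finset.coe_image, Set.mem_image, Finset.mem_coe]
        refine ⟨m1 - m, ?_, by simp⟩
        rw [hT0, Set.Finite.mem_toFinset]
        exact ⟨h6, h2⟩
      rw [finsum_eq_sum_of_support_subset _ e1, Finset.sum_image]
      · simp
      · intro a _ b _ hab
        simpa using hab
    rw [e]
    have h7 : ‖∑ r ∈ T0, ∑ i : Fin d × Fin d, B r i.1 i.2 * K (m1 - r) i‖ ≤
        ∑ p ∈ T0 ×ˢ (univ : Finset (Fin d × Fin d)), ‖B p.1 p.2.1 p.2.2‖ * ‖K (m1 - p.1) p.2‖ := by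
      rw [Finset.sum_product]
      refine (norm_sum_le _ _).trans (Finset.sum_le_sum fun r _ => ?_)
      refine (norm_sum_le _ _).trans (Finset.sum_le_sum fun i _ => ?_)
      rw [norm_mul]
    calc ‖∑ r ∈ T0, ∑ i : Fin d × Fin d, B r i.1 i.2 * K (m1 - r) i‖ ^ 2
        ≤ (∑ p ∈ T0 ×ˢ (univ : Finset (Fin d × Fin d)),
            ‖B p.1 p.2.1 p.2.2‖ * ‖K (m1 - p.1) p.2‖) ^ 2 := by
          exact pow_le_pow_left₀ (norm_nonneg _) h7 2
      _ ≤ (∑ p ∈ T0 ×ˢ (univ : Finset (Fin d × Fin d)), ‖B p.1 p.2.1 p.2.2‖ ^ 2) *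
            ∑ p ∈ T0 ×ˢ (univ : Finset (Fin d × Fin d)), ‖K (m1 - p.1) p.2‖ ^ 2 :=
          Finset.sum_mul_sq_le_sq_mul_sq _ _ _
      _ = C * ∑ r ∈ T0, ∑ i : Fin d × Fin d, ‖K (m1 - r) i‖ ^ 2 := by
          rw [Finset.sum_product, Finset.sum_product]

theorem E_mul {n : ℕ} {β : Measure (UnitAddTorus (Fin n))} {h : UnitAddTorus (Fin n) → ℂ}
    (hh : MemLp h 2 β) (m : Fin n → ℤ) : MemLp (fun x => mFourier m x * h x) 2 β := by
  refine MemLp.of_le hh ?_ (Eventually.of_forall fun x => ?_)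
  · exact ((mFourier m).continuous.aestronglyMeasurable).mul hh.aestronglyMeasurable
  · rw [norm_mul]
    have h1 : ‖mFourier m x‖ ≤ 1 := by
      have := (mFourier m).norm_coe_le_norm x
      rwa [mFourier_norm] at this
    calc ‖mFourier m x‖ * ‖h x‖ ≤ 1 * ‖h x‖ := mul_le_mul_of_nonneg_right h1 (norm_nonneg _)
      _ = ‖h x‖ := one_mul _

theorem st_E (h1 : ST_E1) (h2 : ST_E2) (h3 : ST_E3) (h4 : ST_E4) (h5 : ST_E5) (h7 : ST_E7) :
    ST_E := by
  intro n d v B hv hB R0 t K hs hK h0 hne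
  -- the measure
  obtain ⟨β, hβ, hβc⟩ := h1 n (fun m => ∑ a, B m a a)
    (fun m => by
      rw [map_sum]
      exact Finset.sum_congr rfl fun a _ => hB.herm m a a)
    (fun S c => E_pos hB S c) hB.trace
  have := hβ
  -- the functions h
  have hh : ∀ i : Fin d × Fin d, ∃ h : UnitAddTorus (Fin n) → ℂ, MemLp h 2 β ∧
        ∀ m, ∫ x, mFourier m x * h x ∂β = B m i.1 i.2 := fun i =>
    h2 n d v B hB β hβ hβc i.1 i.2
  choose h hh1 hh2 using hh
  obtain ⟨δ, hδ, hgap⟩ := hB.gap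
  have hF : ∀ i : Fin d × Fin d, ∃ F : UnitAddTorus (Fin n) → ℂ, MemLp F 2 β ∧
        ∀ h : UnitAddTorus (Fin n) → ℂ, MemLp h 2 β →
          HasSum (fun m => K m i * ∫ x, mFourier (-m) x * h x ∂β) (∫ x, F x * h x ∂β) := by
    intro i
    refine h3 n v β hβ δ hδ (fun m hm0 hm => ?_) (fun m => K m i) ?_ t (R0 + 1) (fun m hm => ?_)
    · rw [hβc, hgap m hm0 hm]
      simp
    · refine Summable.of_nonneg_of_le (fun _ => by positivity) (fun m => ?_) hs
      exact Finset.single_le_sum (f := fun i => ‖K m i‖ ^ 2) (fun _ _ => by positivity)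
        (Finset.mem_univ i)
    · rw [hK m hm]; rfl
  choose F hF1 hF2 using hF
  set g : UnitAddTorus (Fin n) → ℂ := fun x => ∑ i, h i x * F i x with hg
  have hint : ∀ i, Integrable (fun x => h i x * F i x) β := fun i =>
    (hh1 i).integrable_mul (hF1 i)
  have hgi : Integrable g β := integrable_finsetSum _ fun i _ => hint i
  -- coefficients of g
  have hgc : ∀ m1, ∫ x, mFourier m1 x * g x ∂β =
      ∑ᶠ m : Fin n → ℤ, ∑ i : Fin d × Fin d, B (m1 - m) i.1 i.2 * K m i := by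
    intro m1
    have e1 : ∀ i, HasSum (fun m => B (m1 - m) i.1 i.2 * K m i)
        (∫ x, F i x * (mFourier m1 x * h i x) ∂β) := by
      intro i
      have := hF2 i _ (E_mul (hh1 i) m1)
      have e2 : (fun m => K m i * ∫ x, mFourier (-m) x * (mFourier m1 x * h i x) ∂β) =
          fun m => B (m1 - m) i.1 i.2 * K m i := by
        funext m
        rw [← hh2 i (m1 - m), mul_comm]
        congr 1
        refine integral_congr_ae (Eventually.of_forall fun x => ?_)
        simp only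
        rw [sub_eq_add_neg, mFourier_add]
        ring
      rwa [e2] at this
    have e3 := hasSum_sum (s := (univ : Finset (Fin d × Fin d))) fun i _ => e1 i
    have e4 : ∫ x, mFourier m1 x * g x ∂β =
        ∑ i : Fin d × Fin d, ∫ x, F i x * (mFourier m1 x * h i x) ∂β := by
      rw [← integral_finsetSum]
      · refine integral_congr_ae (Eventually.of_forall fun x => ?_)
        simp only [hg, Finset.mul_sum]
        exact Finset.sum_congr rfl fun i _ => by ring
      · intro i _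
        exact (hF1 i).integrable_mul (E_mul (hh1 i) m1)
    rw [e4, ← e3.tsum_eq, tsum_eq_finsum (E_fin hB hK m1)]
  -- the L2 function on the torus
  obtain ⟨F0, hF0, hF0c⟩ := E_l2 _ (E_sq hB hs hK h0)
  have hne0 : ∀ᵐ x ∂(tor n), F0 x ≠ 0 := by
    refine h5 n v hv F0 hF0 t 1 (fun m hm => ?_) ?_
    · rw [hF0c]; exact h0 m hm
    · obtain ⟨m1, hm1⟩ := hne
      exact ⟨m1, by rw [hF0c]; exact hm1⟩
  have hac : tor n ≪ β := by
    refine h4 n β inferInstance g F0 hgi (hF0.integrable (by norm_num)) (fun m => ?_) hne0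
    rw [hgc, hF0c]
  refine h7 n v β hβ hac _ hβc fun R => ?_
  refine (hB.fin R).subset ?_
  rintro m ⟨hm1, hm2⟩
  refine ⟨hm1, fun h => hm2 ?_⟩
  simp [h]

end Pool.Agent.Helper97.FS
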